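import Pool.Agent.U283.LL.Spec

/-!
# Project LL, package F, part 1: the local Hecke identity
-/

set_option autoImplicit false

open scoped WithZero Matrix
open Matrix Pool.Agent.U283.LL

namespace Pool.Agent.U681.LL

noncomputable section

variable {F : Type} [Field F] {v : Valuation F ℤᵐ⁰}

/-- integral matrices -/
def IntM (v : Valuation F ℤᵐ⁰) (A : M2 F) : Prop := ∀ i j, v (A i j) ≤ 1

theorem IntM.mul {A B : M2 F} (hA : IntM v A) (hB : IntM v B) : IntM v (A * B) := by
  intro i j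
  rw [Matrix.mul_apply]
  refine v.map_sum_le fun k _ => ?_
  rw [map_mul]
  exact mul_le_one' (hA i k) (hB k j)

theorem mem_Cong_zero {g : G2 F} :
    g ∈ Cong v 0 ↔ IntM v (g : M2 F) ∧ IntM v ((g⁻¹ : G2 F) : M2 F) := by
  have h1 : ∀ i j, v ((1 : M2 F) i j) ≤ 1 := by
    intro i j
    rw [Matrix.one_apply]
    split_ifs <;> simp
  have h2 : ∀ (A : M2 F) (i j : Fin 2),
      v (A i j - (1 : M2 F) i j) ≤ WithZero.exp (-((0 : ℕ) : ℤ)) ↔ v (A i j) ≤ 1 := by
    intro A i j
    have e0 : (WithZero.exp (-((0 : ℕ) : ℤ)) : ℤᵐ⁰) = 1 := by simp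
    rw [e0]
    constructor
    · intro h
      have e1 : A i j = (A i j - (1 : M2 F) i j) + (1 : M2 F) i j := by ring
      rw [e1]
      exact v.map_add_le h (h1 i j)
    · intro h
      exact v.map_sub_le h (h1 i j)
  constructor
  · intro h
    exact ⟨fun i j => (h2 _ i j).1 (h i j).1, fun i j => (h2 _ i j).1 (h i j).2⟩
  · rintro ⟨h3, h4⟩ i j
    exact ⟨(h2 _ i j).2 (h3 i j), (h2 _ i j).2 (h4 i j)⟩

/-- integral matrices whose determinant is a unit -/
theorem mem_Cong_of_det {g : G2 F} (h : IntM v (g : M2 F)) (hd : v ((g : M2 F).det) = 1) :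
    g ∈ Cong v 0 := by
  rw [mem_Cong_zero]
  refine ⟨h, ?_⟩
  have h1 : ((g⁻¹ : G2 F) : M2 F) = ((g : M2 F).det)⁻¹ • (g : M2 F).adjugate := by
    rw [Matrix.coe_units_inv, Matrix.inv_def, Ring.inverse_eq_inv']
  intro i j
  rw [h1, Matrix.smul_apply, smul_eq_mul, map_mul, map_inv₀, hd, inv_one, one_mul,
    Matrix.adjugate_fin_two]
  fin_cases i <;> fin_cases j <;> simp [h 0 0, h 0 1, h 1 0, h 1 1]

/-- the representatives of the Hecke operator -/
def gam (ϖ : Fˣ) : Option F → G2 F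
  | none => upper 1 0 ϖ
  | some c => upper ϖ c 1

theorem upper_coe (a : Fˣ) (b : F) (d : Fˣ) :
    ((upper a b d : G2 F) : M2 F) = !![(a : F), b; 0, (d : F)] := rfl

theorem upper_inv_coe (a : Fˣ) (b : F) (d : Fˣ) :
    (((upper a b d)⁻¹ : G2 F) : M2 F) =
      !![(a : F)⁻¹, -b * (a : F)⁻¹ * (d : F)⁻¹; 0, (d : F)⁻¹] := by
  rw [Matrix.coe_units_inv, upper_coe]
  refine Matrix.inv_eq_left_inv ?_
  have ha : (a : F) ≠ 0 := a.ne_zero
  have hd : (d : F) ≠ 0 := d.ne_zero
  ext i j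
  fin_cases i <;> fin_cases j <;> simp [Matrix.mul_apply, Fin.sum_univ_two]
  field_simp
  ring

theorem det_gam (ϖ : Fˣ) (j : Option F) : ((gam ϖ j : G2 F) : M2 F).det = (ϖ : F) := by
  cases j with
  | none => rw [gam, upper_coe, Matrix.det_fin_two_of]; simp
  | some c => rw [gam, upper_coe, Matrix.det_fin_two_of]; simp

variable {ϖ : Fˣ} {E : Finset F}

theorem coset_exists (hϖ : v (ϖ : F) = WithZero.exp (-1 : ℤ)) (hE : IsReps v 1 E) {N : M2 F}
    (hN : IntM v N) (hd : v N.det = WithZero.exp (-1 : ℤ)) :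
    ∃ j ∈ Finset.insertNone E, IntM v (((gam ϖ j)⁻¹ : G2 F) * N : M2 F) := by
  have hϖ' : v ((ϖ : F)⁻¹) = WithZero.exp (1 : ℤ) := by
    rw [map_inv₀, hϖ, ← WithZero.exp_neg, neg_neg]
  have hdiv : ∀ x : F, v x ≤ WithZero.exp (-1 : ℤ) → v ((ϖ : F)⁻¹ * x) ≤ 1 := by
    intro x hx
    rw [map_mul, hϖ']
    calc _ ≤ WithZero.exp (1 : ℤ) * WithZero.exp (-1 : ℤ) := mul_le_mul' le_rfl hx
      _ = 1 := by rw [← WithZero.exp_add]; simp
  have hlt : ∀ x : F, v x ≤ 1 → v x ≠ 1 → v x ≤ WithZero.exp (-1 : ℤ) := by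
    intro x h1 h2
    by_cases h0 : v x = 0
    · rw [h0]; exact zero_le
    · rw [← WithZero.exp_log h0] at h1 h2 ⊢
      rw [WithZero.exp_le_exp]
      rw [← WithZero.exp_zero, WithZero.exp_le_exp] at h1
      have h3 : WithZero.log (v x) ≠ 0 := fun h => h2 (by rw [h, WithZero.exp_zero])
      omega
  have hdet : N.det = N 0 0 * N 1 1 - N 0 1 * N 1 0 := Matrix.det_fin_two N
  have hle1 : (WithZero.exp (-1 : ℤ) : ℤᵐ⁰) ≤ 1 := by
    rw [← WithZero.exp_zero, WithZero.exp_le_exp]; omega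
  by_cases hprim : ∃ l, v (N 1 l) = 1
  · obtain ⟨l, hl⟩ := hprim
    have hl0 : N 1 l ≠ 0 := by
      intro h
      rw [h, map_zero] at hl
      exact zero_ne_one hl
    have hq : v (N 0 l / N 1 l) ≤ 1 := by
      rw [map_div₀, hl, div_one]
      exact hN 0 l
    obtain ⟨c, ⟨hc, hc'⟩, -⟩ := hE.2 _ hq
    refine ⟨some c, Finset.some_mem_insertNone.2 hc, ?_⟩
    have hc1 : v c ≤ 1 := hE.1 c hc
    have hcong : v (N 0 l - c * N 1 l) ≤ WithZero.exp (-1 : ℤ) := by
      have e1 : N 0 l - c * N 1 l = (N 0 l / N 1 l - c) * N 1 l := by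
        field_simp
      rw [e1, map_mul, hl, mul_one]
      simpa using hc'
    have hcong' : ∀ k, v (N 0 k - c * N 1 k) ≤ WithZero.exp (-1 : ℤ) := by
      intro k
      -- `(N 0 k - c N 1 k) * N 1 l = ± det + (N 0 l - c N 1 l) * N 1 k`
      have e1 : v ((N 0 k - c * N 1 k) * N 1 l) ≤ WithZero.exp (-1 : ℤ) := by
        by_cases hkl : k = l
        · rw [hkl, map_mul, hl, mul_one]
          exact hcong
        · have e2 : (N 0 k - c * N 1 k) * N 1 l = (if k = 0 then N.det else -N.det) +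
              (N 0 l - c * N 1 l) * N 1 k := by
            rw [hdet]
            fin_cases k <;> fin_cases l
            · exact absurd rfl hkl
            · simp; ring
            · simp; ring
            · exact absurd rfl hkl
          rw [e2]
          refine v.map_add_le ?_ ?_
          · split_ifs
            · exact hd.le
            · rw [Valuation.map_neg]; exact hd.le
          · rw [map_mul]
            calc _ ≤ WithZero.exp (-1 : ℤ) * 1 := mul_le_mul' hcong (hN 1 k)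
              _ = _ := mul_one _
      rwa [map_mul, hl, mul_one] at e1
    intro i j
    have e3 : ((((gam ϖ (some c))⁻¹ : G2 F) : M2 F) * N) =
        !![(ϖ : F)⁻¹ * (N 0 0 - c * N 1 0), (ϖ : F)⁻¹ * (N 0 1 - c * N 1 1); N 1 0, N 1 1] := by
      rw [gam, upper_inv_coe]
      ext i j
      fin_cases i <;> fin_cases j <;> simp [Matrix.mul_apply, Fin.sum_univ_two] <;> ring
    rw [e3]
    fin_cases i <;> fin_cases j
    · exact hdiv _ (hcong' 0)
    · exact hdiv _ (hcong' 1)
    · exact hN 1 0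
    · exact hN 1 1
  · push Not at hprim
    refine ⟨none, Finset.none_mem_insertNone, ?_⟩
    have e3 : ((((gam ϖ none)⁻¹ : G2 F) : M2 F) * N) =
        !![N 0 0, N 0 1; (ϖ : F)⁻¹ * N 1 0, (ϖ : F)⁻¹ * N 1 1] := by
      rw [gam, upper_inv_coe]
      ext i j
      fin_cases i <;> fin_cases j <;> simp [Matrix.mul_apply, Fin.sum_univ_two]
    intro i j
    rw [e3]
    fin_cases i <;> fin_cases j
    · exact hN 0 0
    · exact hN 0 1
    · exact hdiv _ (hlt _ (hN 1 0) (hprim 0))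
    · exact hdiv _ (hlt _ (hN 1 1) (hprim 1))

theorem coset_unique (hϖ : v (ϖ : F) = WithZero.exp (-1 : ℤ)) (hE : IsReps v 1 E)
    {j j' : Option F} (hj : j ∈ Finset.insertNone E) (hj' : j' ∈ Finset.insertNone E)
    (h : IntM v (((gam ϖ j)⁻¹ : G2 F) * (gam ϖ j' : G2 F) : M2 F)) : j = j' := by
  have hϖ' : v ((ϖ : F)⁻¹) = WithZero.exp (1 : ℤ) := by
    rw [map_inv₀, hϖ, ← WithZero.exp_neg, neg_neg]
  have hgt : ¬ ((WithZero.exp (1 : ℤ) : ℤᵐ⁰) ≤ 1) := by
    rw [← WithZero.exp_zero, WithZero.exp_le_exp]; omega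
  have hϖ0 : (ϖ : F) ≠ 0 := ϖ.ne_zero
  rcases j with _ | c <;> rcases j' with _ | c'
  · rfl
  · exfalso
    have h1 := h 1 1
    rw [gam, gam, upper_inv_coe, upper_coe] at h1
    simp [Matrix.mul_apply, Fin.sum_univ_two] at h1
    rw [← map_inv₀, hϖ'] at h1
    exact hgt h1
  · exfalso
    have h1 := h 0 0
    rw [gam, gam, upper_inv_coe, upper_coe] at h1
    simp [Matrix.mul_apply, Fin.sum_univ_two] at h1
    rw [← map_inv₀, hϖ'] at h1
    exact hgt h1
  · rw [Finset.some_mem_insertNone] at hj hj'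
    have h1 := h 0 1
    rw [gam, gam, upper_inv_coe, upper_coe] at h1
    simp only [Matrix.mul_apply, Fin.sum_univ_two] at h1
    simp at h1
    have h2 : v (c' - c) ≤ WithZero.exp (-1 : ℤ) := by
      have e1 : c' - c = (ϖ : F) * ((ϖ : F)⁻¹ * c' + -(c * (ϖ : F)⁻¹)) := by
        field_simp
        ring
      rw [e1, map_mul, hϖ]
      calc _ ≤ WithZero.exp (-1 : ℤ) * 1 := mul_le_mul' le_rfl h1
        _ = _ := mul_one _
    have h3 : v (c' - c') ≤ WithZero.exp (-1 : ℤ) := by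
      rw [sub_self, map_zero]; exact zero_le
    have h4 := (hE.2 c' (hE.1 c' hj')).unique (y₁ := c) (y₂ := c')
      ⟨hj, by simpa using h2⟩ ⟨hj', by simp⟩
    rw [h4]


/-- the matrix `(1 -y; 0 0)` -/
def My (y : F) : M2 F := !![1, -y; 0, 0]

/-- `x⁻¹ (1 -y; 0 0) x` is integral -/
def Int (v : Valuation F ℤᵐ⁰) (x : G2 F) (y : F) : Prop :=
  ∀ i j, v ((((x⁻¹ : G2 F) : M2 F) * !![1, -y; 0, 0] * (x : M2 F) : M2 F) i j) ≤ 1

theorem Int_iff (x : G2 F) (y : F) : Int v x y ↔ IntM v ((x⁻¹ : G2 F) * My y * (x : M2 F)) :=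
  Iff.rfl

/-- conjugation by an integral matrix -/
theorem Int_mul_mem {x u : G2 F} (hu : u ∈ Cong v 0) (y : F) : Int v (x * u) y ↔ Int v x y := by
  have key : ∀ {x u : G2 F}, u ∈ Cong v 0 → Int v x y → Int v (x * u) y := by
    intro x u hu h
    rw [Int_iff] at h ⊢
    rw [mem_Cong_zero] at hu
    have e1 : (((x * u)⁻¹ : G2 F) : M2 F) * My y * ((x * u : G2 F) : M2 F) =
        ((u⁻¹ : G2 F) : M2 F) * (((x⁻¹ : G2 F) : M2 F) * My y * (x : M2 F)) * (u : M2 F) := by
      rw [_root_.mul_inv_rev, Units.val_mul, Units.val_mul]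
      simp only [Matrix.mul_assoc]
    rw [e1]
    exact (hu.2.mul h).mul hu.1
  refine ⟨fun h => ?_, key hu⟩
  have h1 := key (inv_mem hu) h
  rwa [mul_inv_cancel_right] at h1

/-- the Iwasawa decomposition -/
theorem iwasawa (v : Valuation F ℤᵐ⁰) (x : G2 F) :
    ∃ (a d : Fˣ) (z : F) (k : G2 F), k ∈ Cong v 0 ∧ x = upper a z d * k := by
  have key : ∀ κ : G2 F, κ ∈ Cong v 0 → ((x * κ : G2 F) : M2 F) 1 0 = 0 →
      ∃ (a d : Fˣ) (z : F) (k : G2 F), k ∈ Cong v 0 ∧ x = upper a z d * k := by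
    intro κ hκ h
    have hdet : ((x * κ : G2 F) : M2 F).det ≠ 0 := by
      have := (Matrix.isUnit_iff_isUnit_det _).1 (x * κ).isUnit
      exact this.ne_zero
    rw [Matrix.det_fin_two, h, mul_zero, sub_zero] at hdet
    have ha : ((x * κ : G2 F) : M2 F) 0 0 ≠ 0 := left_ne_zero_of_mul hdet
    have hd : ((x * κ : G2 F) : M2 F) 1 1 ≠ 0 := right_ne_zero_of_mul hdet
    refine ⟨Units.mk0 _ ha, Units.mk0 _ hd, ((x * κ : G2 F) : M2 F) 0 1, κ⁻¹, inv_mem hκ, ?_⟩
    rw [eq_mul_inv_iff_mul_eq]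
    apply Units.ext
    rw [upper_coe]
    ext i j
    fin_cases i <;> fin_cases j
    · rfl
    · rfl
    · exact h
    · rfl
  have hx : ¬ ((x : M2 F) 1 0 = 0 ∧ (x : M2 F) 1 1 = 0) := by
    rintro ⟨h1, h2⟩
    have h3 : (x : M2 F).det ≠ 0 := ((Matrix.isUnit_iff_isUnit_det _).1 x.isUnit).ne_zero
    rw [Matrix.det_fin_two, h1, h2] at h3
    simp at h3
  rcases le_or_gt (v ((x : M2 F) 1 0)) (v ((x : M2 F) 1 1)) with hle | hlt
  · have hd : (x : M2 F) 1 1 ≠ 0 := by
      intro h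
      rw [h, map_zero] at hle
      exact hx ⟨(map_eq_zero v).1 (le_zero_iff.1 hle), h⟩
    set q : F := (x : M2 F) 1 0 / (x : M2 F) 1 1 with hq
    have hvq : v q ≤ 1 := by
      rw [hq, map_div₀]
      exact div_le_one_of_le₀ hle zero_le
    refine key (Matrix.GeneralLinearGroup.mkOfDetNeZero !![1, 0; -q, 1] (by simp)) ?_ ?_
    · refine mem_Cong_of_det ?_ ?_
      · intro i j
        show v (!![1, 0; -q, 1] i j) ≤ 1
        fin_cases i <;> fin_cases j <;> simp [hvq]
      · show v (!![1, 0; -q, 1] : M2 F).det = 1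
        rw [Matrix.det_fin_two_of]
        simp
    · show ((x : M2 F) * !![1, 0; -q, 1]) 1 0 = 0
      simp only [Matrix.mul_apply, Fin.sum_univ_two]
      simp [hq]
      field_simp
      ring
  · have hc : (x : M2 F) 1 0 ≠ 0 := by
      intro h
      rw [h, map_zero] at hlt
      exact absurd hlt (not_lt.2 zero_le)
    set q : F := (x : M2 F) 1 1 / (x : M2 F) 1 0 with hq
    have hvq : v q ≤ 1 := by
      rw [hq, map_div₀]
      exact div_le_one_of_le₀ hlt.le zero_le
    refine key (Matrix.GeneralLinearGroup.mkOfDetNeZero !![-q, 1; 1, 0] (by simp)) ?_ ?_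
    · refine mem_Cong_of_det ?_ ?_
      · intro i j
        show v (!![-q, 1; 1, 0] i j) ≤ 1
        fin_cases i <;> fin_cases j <;> simp [hvq]
      · show v (!![-q, 1; 1, 0] : M2 F).det = 1
        rw [Matrix.det_fin_two_of]
        simp
    · show ((x : M2 F) * !![-q, 1; 1, 0]) 1 0 = 0
      simp only [Matrix.mul_apply, Fin.sum_univ_two]
      simp [hq]
      field_simp
      ring

/-- conjugation by an upper triangular matrix -/
theorem conj_upper (a d : Fˣ) (z y : F) (γ : G2 F) :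
    (((upper a z d * γ)⁻¹ : G2 F) : M2 F) * My y * ((upper a z d * γ : G2 F) : M2 F) =
      ((γ⁻¹ : G2 F) : M2 F) * My (((d : F) * y - z) / a) * (γ : M2 F) := by
  have h1 : (((upper a z d)⁻¹ : G2 F) : M2 F) * My y * ((upper a z d : G2 F) : M2 F) =
      My (((d : F) * y - z) / a) := by
    rw [upper_inv_coe, upper_coe]
    have ha : (a : F) ≠ 0 := a.ne_zero
    ext i j
    fin_cases i <;> fin_cases j <;> simp [My, Matrix.mul_apply, Fin.sum_univ_two]
    field_simp
    ring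
  rw [_root_.mul_inv_rev, Units.val_mul, Units.val_mul, ← h1]
  simp only [Matrix.mul_assoc]

theorem Int_upper_mul (a d : Fˣ) (z y : F) (γ : G2 F) :
    Int v (upper a z d * γ) y ↔ Int v γ (((d : F) * y - z) / a) := by
  rw [Int_iff, Int_iff, conj_upper]

theorem Int_one (y : F) : Int v 1 y ↔ v y ≤ 1 := by
  rw [Int_iff]
  have h1 : (((1⁻¹ : G2 F) : M2 F) * My y * ((1 : G2 F) : M2 F)) = My y := by
    rw [inv_one, Units.val_one, Matrix.one_mul, Matrix.mul_one]
  rw [h1]
  constructor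
  · intro h
    have := h 0 1
    simpa [My] using this
  · intro h i j
    fin_cases i <;> fin_cases j <;> simp [My, h]

theorem Int_none (hϖ : v (ϖ : F) = WithZero.exp (-1 : ℤ)) (y : F) :
    Int v (gam ϖ none) y ↔ v y ≤ WithZero.exp (1 : ℤ) := by
  rw [Int_iff]
  have h1 : (((gam ϖ none)⁻¹ : G2 F) : M2 F) * My y * ((gam ϖ none : G2 F) : M2 F) =
      !![1, -(y * (ϖ : F)); 0, 0] := by
    rw [gam, upper_inv_coe, upper_coe]
    ext i j
    fin_cases i <;> fin_cases j <;> simp [My, Matrix.mul_apply, Fin.sum_univ_two]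
  have h2 : v (y * (ϖ : F)) ≤ 1 ↔ v y ≤ WithZero.exp (1 : ℤ) := by
    have e1 : (1 : ℤᵐ⁰) = WithZero.exp (1 : ℤ) * WithZero.exp (-1 : ℤ) := by
      rw [← WithZero.exp_add]; simp
    rw [map_mul, hϖ, e1]
    exact mul_le_mul_iff_left₀ WithZero.exp_pos
  rw [h1, ← h2]
  constructor
  · intro h
    have := h 0 1
    simpa using this
  · intro h i j
    rw [map_mul] at h
    fin_cases i <;> fin_cases j <;> simp [h]

theorem Int_some (hϖ : v (ϖ : F) = WithZero.exp (-1 : ℤ)) (c y : F) :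
    Int v (gam ϖ (some c)) y ↔ v (y - c) ≤ WithZero.exp (-1 : ℤ) := by
  rw [Int_iff]
  have h0 : (ϖ : F) ≠ 0 := ϖ.ne_zero
  have h1 : (((gam ϖ (some c))⁻¹ : G2 F) : M2 F) * My y * ((gam ϖ (some c) : G2 F) : M2 F) =
      !![1, -((y - c) * (ϖ : F)⁻¹); 0, 0] := by
    rw [gam, upper_inv_coe, upper_coe]
    ext i j
    fin_cases i <;> fin_cases j <;> simp [My, Matrix.mul_apply, Fin.sum_univ_two]
    field_simp
    ring
  have h2 : v ((y - c) * (ϖ : F)⁻¹) ≤ 1 ↔ v (y - c) ≤ WithZero.exp (-1 : ℤ) := by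
    have e1 : (1 : ℤᵐ⁰) = WithZero.exp (-1 : ℤ) * WithZero.exp (1 : ℤ) := by
      rw [← WithZero.exp_add]; simp
    have e2 : v ((ϖ : F)⁻¹) = WithZero.exp (1 : ℤ) := by
      rw [map_inv₀, hϖ, ← WithZero.exp_neg, neg_neg]
    rw [map_mul, e2, e1]
    exact mul_le_mul_iff_left₀ WithZero.exp_pos
  rw [h1, ← h2]
  constructor
  · intro h
    have := h 0 1
    rw [← Valuation.map_neg]
    simpa using this
  · intro h i j
    fin_cases i <;> fin_cases j
    · simp
    · show v (-((y - c) * (ϖ : F)⁻¹)) ≤ 1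
      rw [Valuation.map_neg]
      exact h
    · simp
    · simp

open scoped Classical in
/-- the sum over the representatives does not change if `x` is multiplied by `GL₂(O)` -/
theorem sum_gam (hϖ : v (ϖ : F) = WithZero.exp (-1 : ℤ)) (hE : IsReps v 1 E) (β k : G2 F)
    (hk : k ∈ Cong v 0) (y : F) :
    ∑ j ∈ Finset.insertNone E, (if Int v (β * k * gam ϖ j) y then (1 : ℂ) else 0) =
      ∑ j ∈ Finset.insertNone E, (if Int v (β * gam ϖ j) y then (1 : ℂ) else 0) := by
  have hdetk : v (k : M2 F).det = 1 := by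
    have h1 := (mem_Cong_zero.1 hk)
    have hle : ∀ A : M2 F, IntM v A → v A.det ≤ 1 := by
      intro A hA
      rw [Matrix.det_fin_two]
      refine v.map_sub_le ?_ ?_
      · rw [map_mul]; exact mul_le_one' (hA 0 0) (hA 1 1)
      · rw [map_mul]; exact mul_le_one' (hA 0 1) (hA 1 0)
    have h2 := hle _ h1.1
    have h3 := hle _ h1.2
    have h4 : v (k : M2 F).det * v ((k⁻¹ : G2 F) : M2 F).det = 1 := by
      rw [← map_mul, ← Matrix.det_mul, ← Units.val_mul, mul_inv_cancel, Units.val_one,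
        Matrix.det_one, map_one]
    refine le_antisymm h2 ?_
    rw [← h4]
    exact mul_le_of_le_one_right' h3
  have hex : ∀ j : Option F, ∃ i, j ∈ Finset.insertNone E →
      i ∈ Finset.insertNone E ∧ (gam ϖ i)⁻¹ * (k * gam ϖ j) ∈ Cong v 0 := by
    intro j
    by_cases hj : j ∈ Finset.insertNone E
    · have hint : IntM v ((gam ϖ j : G2 F) : M2 F) := by
        have hϖ1 : v (ϖ : F) ≤ 1 := by
          rw [hϖ, ← WithZero.exp_zero, WithZero.exp_le_exp]; omega
        rcases j with _ | c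
        · intro i l
          rw [gam, upper_coe]
          fin_cases i <;> fin_cases l <;> simp [hϖ1]
        · rw [Finset.some_mem_insertNone] at hj
          have hc := hE.1 c hj
          intro i l
          rw [gam, upper_coe]
          fin_cases i <;> fin_cases l <;> simp [hϖ1, hc]
      have hd : v (((k : M2 F) * ((gam ϖ j : G2 F) : M2 F)).det) = WithZero.exp (-1 : ℤ) := by
        rw [Matrix.det_mul, map_mul, hdetk, one_mul, det_gam, hϖ]
      obtain ⟨i, hi, hi'⟩ := coset_exists hϖ hE ((mem_Cong_zero.1 hk).1.mul hint) hd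
      refine ⟨i, fun _ => ⟨hi, mem_Cong_of_det ?_ ?_⟩⟩
      · rw [Units.val_mul, Units.val_mul]
        exact hi'
      · rw [Units.val_mul, Units.val_mul, Matrix.det_mul, map_mul, hd]
        have h5 : v (((gam ϖ i)⁻¹ : G2 F) : M2 F).det * v (ϖ : F) = 1 := by
          rw [← det_gam ϖ i, ← map_mul, ← Matrix.det_mul, ← Units.val_mul, inv_mul_cancel,
            Units.val_one, Matrix.det_one, map_one]
        rw [hϖ] at h5
        exact h5
    · exact ⟨none, fun h => absurd h hj⟩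
  choose σ hσ using hex
  have hinj : Set.InjOn σ (Finset.insertNone E : Finset (Option F)) := by
    intro j hj j' hj' h
    have h1 := (hσ j hj).2
    have h2 := (hσ j' hj').2
    rw [← h] at h2
    have h3 := mul_mem (inv_mem h1) h2
    have e1 : ((gam ϖ (σ j))⁻¹ * (k * gam ϖ j))⁻¹ * ((gam ϖ (σ j))⁻¹ * (k * gam ϖ j')) =
        (gam ϖ j)⁻¹ * gam ϖ j' := by group
    rw [e1] at h3
    refine coset_unique hϖ hE hj hj' ?_
    have h4 := (mem_Cong_zero.1 h3).1
    rwa [Units.val_mul] at h4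
  have hmaps : Set.MapsTo σ (Finset.insertNone E : Finset (Option F))
      (Finset.insertNone E : Finset (Option F)) := fun j hj => (hσ j hj).1
  refine Finset.sum_nbij σ hmaps hinj
    (Finset.surjOn_of_injOn_of_card_le _ hmaps hinj le_rfl) fun j hj => ?_
  have h1 := (hσ j hj).2
  have e1 : β * k * gam ϖ j = β * gam ϖ (σ j) * ((gam ϖ (σ j))⁻¹ * (k * gam ϖ j)) := by group
  rw [e1]
  congr 1
  rw [eq_iff_iff]
  exact Int_mul_mem h1 y

open scoped Classical in
/-- **The local Hecke identity.** -/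
theorem local_hecke (hϖ : v (ϖ : F) = WithZero.exp (-1 : ℤ)) (hE : IsReps v 1 E) (x : G2 F) :
    ∃ (y₀ : F) (s : ℤ), (∀ y, Int v x y ↔ v (y - y₀) ≤ WithZero.exp s) ∧
      ∀ y, ∑ c ∈ E, (if Int v (x * upper ϖ c 1) y then (1 : ℂ) else 0) +
        (if Int v (x * upper 1 0 ϖ) y then (1 : ℂ) else 0) =
        (if v (y - y₀) ≤ WithZero.exp s then (1 : ℂ) else 0) +
          (if v (y - y₀) ≤ WithZero.exp (s + 1) then (1 : ℂ) else 0) := by
  obtain ⟨a, d, z, k, hk, rfl⟩ := iwasawa v x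
  have ha : (a : F) ≠ 0 := a.ne_zero
  have hd : (d : F) ≠ 0 := d.ne_zero
  have hva : v ((a : F) / d) ≠ 0 := by
    rw [Valuation.ne_zero_iff]
    exact div_ne_zero ha hd
  have hs : ∀ (y : F) (n : ℤ), v (((d : F) * y - z) / a) ≤ WithZero.exp n ↔
      v (y - z / d) ≤ WithZero.exp (WithZero.log (v ((a : F) / d)) + n) := by
    intro y n
    have e1 : y - z / d = ((a : F) / d) * (((d : F) * y - z) / a) := by
      field_simp
    rw [WithZero.exp_add, WithZero.exp_log hva, e1, map_mul]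
    exact (mul_le_mul_iff_right₀ (zero_lt_iff.2 hva)).symm
  refine ⟨z / d, WithZero.log (v ((a : F) / d)), fun y => ?_, fun y => ?_⟩
  · have h1 : upper a z d * k = upper a z d * 1 * k := by rw [mul_one]
    rw [h1, Int_mul_mem hk, Int_upper_mul, Int_one, ← WithZero.exp_zero, hs, add_zero]
  · have h1 := sum_gam hϖ hE (upper a z d) k hk y
    rw [Finset.sum_insertNone, Finset.sum_insertNone, add_comm,
      add_comm (if Int v (upper a z d * gam ϖ none) y then (1 : ℂ) else 0)] at h1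
    have h2 : ∀ c, gam ϖ (some c) = upper ϖ c 1 := fun c => rfl
    have h3 : gam ϖ none = upper 1 0 ϖ := rfl
    simp only [h2, h3] at h1
    rw [h1]
    simp only [Int_upper_mul]
    have h4 : ∀ c y, Int v (upper ϖ c 1) y ↔ v (y - c) ≤ WithZero.exp (-1 : ℤ) :=
      fun c y => Int_some hϖ c y
    have h5 : ∀ y, Int v (upper 1 0 ϖ) y ↔ v y ≤ WithZero.exp (1 : ℤ) := fun y => Int_none hϖ y
    simp only [h4, h5, hs _ 1]
    congr 1
    have h6 : v (y - z / d) ≤ WithZero.exp (WithZero.log (v ((a : F) / d))) ↔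
        v (((d : F) * y - z) / a) ≤ 1 := by
      rw [← WithZero.exp_zero, hs, add_zero]
    simp only [h6]
    set y' := ((d : F) * y - z) / a with hy'
    by_cases hy1 : v y' ≤ 1
    · rw [if_pos hy1]
      obtain ⟨e, ⟨he, he'⟩, huniq⟩ := hE.2 y' hy1
      rw [Finset.sum_eq_single e]
      · rw [if_pos (by simpa using he')]
      · intro b hb hbe
        rw [if_neg]
        intro h
        exact hbe (huniq b ⟨hb, by simpa using h⟩)
      · exact fun h => absurd he h
    · rw [if_neg hy1]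
      refine Finset.sum_eq_zero fun c hc => if_neg fun h => hy1 ?_
      have e1 : y' = (y' - c) + c := by ring
      rw [e1]
      refine v.map_add_le (h.trans ?_) (hE.1 c hc)
      rw [← WithZero.exp_zero, WithZero.exp_le_exp]
      omega

end

end Pool.Agent.U681.LL
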