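import Mathlib

/-!
# Finite sums over a free action with vanishing orbit sums
-/

set_option autoImplicit false

namespace Pool.Agent.U681.LL

/-- If the additive group `Q` acts freely on `X`, the function `F` on `X` has finite support and all sums
over orbits vanish, then the sum of `F` vanishes. -/
theorem finsum_eq_zero_of_orbits {Q X M : Type*} [AddGroup Q] [AddAction Q X] [AddCommMonoid M]
    (F : X → M) (hF : (Function.support F).Finite)
    (hfree : ∀ (q : Q) (x : X), q +ᵥ x = x → q = 0)
    (horb : ∀ x : X, ∑ᶠ q : Q, F (q +ᵥ x) = 0) : ∑ᶠ x, F x = 0 := by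
  classical
  have hinj : ∀ x : X, Function.Injective fun q : Q => q +ᵥ x := by
    intro x q q' h
    have h1 : (-q' + q) +ᵥ x = x := by
      rw [add_vadd]
      simp only at h
      rw [h, neg_vadd_vadd]
    have h2 := hfree _ _ h1
    rw [neg_add_eq_zero] at h2
    exact h2.symm
  let π : X → AddAction.orbitRel.Quotient Q X := fun x => Quotient.mk _ x
  set S := hF.toFinset with hS
  have hSsub : Function.support F ⊆ ↑S := by
    intro x hx
    rw [hS, Set.Finite.coe_toFinset]
    exact hx
  rw [finsum_eq_sum_of_support_subset F hSsub,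
    ← Finset.sum_fiberwise_of_maps_to (s := S) (t := S.image π)
      (fun x hx => Finset.mem_image_of_mem π hx)]
  refine Finset.sum_eq_zero fun ω hω => ?_
  obtain ⟨x, hx, rfl⟩ := Finset.mem_image.1 hω
  have h1 : (Function.support fun q : Q => F (q +ᵥ x)).Finite :=
    hF.preimage ((hinj x).injOn) |>.subset fun q hq => hq
  rw [← horb x, finsum_eq_sum_of_support_subset (s := h1.toFinset) _ (by
    rw [Set.Finite.coe_toFinset])]
  symm
  refine Finset.sum_bij_ne_zero (fun q _ _ => q +ᵥ x) ?_ ?_ ?_ ?_
  · intro q hq hq'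
    rw [Finset.mem_filter]
    refine ⟨?_, ?_⟩
    · rw [hS, Set.Finite.mem_toFinset]
      exact hq'
    · exact Quotient.sound (s := AddAction.orbitRel Q X) ⟨q, rfl⟩
  · intro q _ _ q' _ _ h
    exact hinj x h
  · intro y hy hy'
    rw [Finset.mem_filter] at hy
    obtain ⟨q, rfl⟩ : ∃ q : Q, q +ᵥ x = y :=
      Quotient.exact (s := AddAction.orbitRel Q X) hy.2
    exact ⟨q, by rw [Set.Finite.mem_toFinset]; exact hy', hy', rfl⟩
  · intro q _ _
    rfl

end Pool.Agent.U681.LL
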